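import Pool.Agent.H49.HN.Grow

/-!
# Growth of heights along the orbits of a parabolic group, exponent `2 + eps`

Weil's height machine for the points `n.x` of the orbits gives the hypotheses of `growth_eps`. All
data are explicit arguments, so that the theorem can be used with any interface.
-/

namespace Pool.Agent.H49.HN

open Pool.Agent.H13.HK (Heights)
open scoped BigOperators

/-- additive functions on the combinations which occur -/
theorem additive_three {Lam : Type} [AddCommGroup Lam] (NS : AddSubgroup Lam) (F : Lam → ℝ)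
    (hF : ∀ G ∈ NS, ∀ G' ∈ NS, F (G + G') = F G + F G') {u v w : Lam} (hu : u ∈ NS) (hv : v ∈ NS)
    (hw : w ∈ NS) (a c : ℤ) : F (u + a • v - c • w) = F u + a * F v - c * F w := by
  let φ : NS →+ ℝ := AddMonoidHom.mk' (fun G => F G) (fun G G' => hF G G.2 G' G'.2)
  have h1 : ((⟨u, hu⟩ + a • ⟨v, hv⟩ - c • ⟨w, hw⟩ : NS) : Lam) = u + a • v - c • w := by
    simp
  have h2 : F (u + a • v - c • w) = φ (⟨u, hu⟩ + a • ⟨v, hv⟩ - c • ⟨w, hw⟩ : NS) := by
    rw [← h1]; rfl
  rw [h2, map_sub, map_add, map_zsmul, map_zsmul]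
  simp only [zsmul_eq_mul]
  rfl

/-- Every class is dominated by the ample class `A`, uniformly in the points of the orbits. -/
theorem dominated {Lam : Type} [AddCommGroup Lam] {NS : AddSubgroup Lam} {Ample : Set Lam}
    {A : Lam} (hANS : A ∈ NS) (ample_dom : ∀ x ∈ NS, ∃ n : ℕ, 0 < n ∧ n • A + x ∈ Ample)
    {r : ℕ} {D : Type} (H : D → (Fin r → ℤ) → Lam → ℝ)
    (H_add : ∀ x n, ∀ G ∈ NS, ∀ G' ∈ NS, H x n (G + G') = H x n G + H x n G')
    (H_pos : ∀ G ∈ Ample, ∃ C : ℝ, ∀ x n, - C ≤ H x n G) {G : Lam}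
    (hG : G ∈ NS) : ∃ c : ℝ, 0 ≤ c ∧ ∀ x n, |H x n G| ≤ c * (1 + |H x n A|) := by
  have hlow : ∀ G ∈ NS, ∃ c : ℝ, 0 ≤ c ∧ ∀ x n,
      - H x n G ≤ c * (1 + |H x n A|) := by
    intro G hG
    obtain ⟨N, hN, hNa⟩ := ample_dom G hG
    obtain ⟨c, hc⟩ := H_pos _ hNa
    refine ⟨|c| + N, by positivity, fun x n => ?_⟩
    have h4 := hc x n
    have h5 := additive_three NS (H x n) (H_add x n) hG hANS hANS (N : ℤ) 0
    rw [zero_smul, sub_zero, natCast_zsmul, add_comm] at h5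
    rw [h5] at h4
    push_cast at h4
    have h6 := le_abs_self (H x n A)
    have h7 := abs_nonneg (H x n A)
    have h8 := le_abs_self c
    have h9 := abs_nonneg c
    have hN0 : (0 : ℝ) ≤ N := Nat.cast_nonneg _
    have h10 : (N : ℝ) * H x n A ≤ N * |H x n A| := mul_le_mul_of_nonneg_left h6 hN0
    nlinarith [mul_nonneg h9 h7]
  obtain ⟨c1, hc1, h1⟩ := hlow G hG
  obtain ⟨c2, hc2, h2⟩ := hlow (-G) (AddSubgroup.neg_mem _ hG)
  refine ⟨c1 + c2, by positivity, fun x n => ?_⟩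
  have hneg : H x n (-G) = - H x n G := by
    have h5 := additive_three NS (H x n) (H_add x n) hG hG hG (-2) 0
    have h6 : G + (-2 : ℤ) • G - (0 : ℤ) • G = -G := by
      rw [zero_smul, sub_zero, neg_smul, two_smul]; abel
    rw [h6] at h5
    push_cast at h5
    linarith
  have h3 := h1 x n
  have h4 := h2 x n
  rw [hneg] at h4
  have hh : 0 ≤ 1 + |H x n A| := by positivity
  have p1 := mul_nonneg hc1 hh
  have p2 := mul_nonneg hc2 hh
  rw [abs_le]
  constructor <;> nlinarith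

/-- **HEIGHT GROWTH** with exponent `2 + ε`: the height `hh x n` of the point `n.x` is at most
`C (1 + |n|)^2 ((1 + |n|)^ε + 1 + hh x 0)`. Here `b`, `pull` are the data of a parabolic group
`Z^r` (`pull n A = A + 2 q(L,A) b n - 2 q(L,A) q(b n, b n) L`, `pull n L = L`). -/
theorem heights_growth_eps {Lam : Type} [AddCommGroup Lam] (q : Lam → Lam → ℤ)
    (q_symm : ∀ x y, q x y = q y x) (q_add : ∀ x y z, q (x + y) z = q x z + q y z)
    (NS : AddSubgroup Lam) (Ample : Set Lam) (A L : Lam) (hANS : A ∈ NS) (hL : L ∈ NS)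
    (hLA : 0 < q L A) (ample_dom : ∀ x ∈ NS, ∃ n : ℕ, 0 < n ∧ n • A + x ∈ Ample)
    {r : ℕ} (hr : 2 ≤ r) (pull : (Fin r → ℤ) → Lam → Lam) (b : (Fin r → ℤ) →+ Lam)
    (b_NS : ∀ n, b n ∈ NS) (b_neg : ∀ n, n ≠ 0 → q (b n) (b n) < 0)
    (pull_NS : ∀ n, pull n A ∈ NS) (pull_L : ∀ n, pull n L = L)
    (pull_A : ∀ n, pull n A = A + (2 * q L A) • b n - (2 * q L A * q (b n) (b n)) • L)
    {D : Type} (H : D → (Fin r → ℤ) → Lam → ℝ) (hh : D → (Fin r → ℤ) → ℝ)
    (hh_nonneg : ∀ x n, 0 ≤ hh x n)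
    (H_add : ∀ x n, ∀ G ∈ NS, ∀ G' ∈ NS, H x n (G + G') = H x n G + H x n G')
    (H_A : ∃ C : ℝ, ∀ x n, |H x n A - hh x n| ≤ C)
    (H_pull : ∀ G ∈ NS, ∀ g : Fin r → ℤ, ∃ C : ℝ, ∀ x n, |H x (n + g) G - H x n (pull g G)| ≤ C)
    (H_pos : ∀ G ∈ Ample, ∃ C : ℝ, ∀ x n, - C ≤ H x n G) (ε : ℝ) (hε : 0 < ε) :
    ∃ C : ℝ, 0 ≤ C ∧ ∀ (x : D) (n : Fin r → ℤ),
      hh x n ≤ C * (1 + ∑ i, |(n i : ℝ)|) ^ 2 * ((1 + ∑ i, |(n i : ℝ)|) ^ ε + 1 + hh x 0) := by
  obtain ⟨CA, hCA⟩ := H_A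
  let HD : Heights :=
    { r := r
      two_le := hr
      X := D × (Fin r → ℤ)
      act := fun g y => (y.1, y.2 + g)
      act_zero := fun y => by simp
      act_add := fun g g' y => by
        refine Prod.ext rfl ?_
        show y.2 + (g + g') = y.2 + g' + g
        abel
      hA := fun y => H y.1 y.2 A
      hL := fun y => H y.1 y.2 L
      k := fun u c => ((-4 * q L A * q (b u) (b c) : ℤ) : ℝ)
      k_add := fun u u' c => by
        rw [map_add, q_add]
        push_cast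
        ring
      k_symm := fun u c => by rw [q_symm (b u)]
      k_pos := fun u hu => by
        have h1 := b_neg u hu
        have h2 : 0 < -4 * q L A * q (b u) (b u) := by nlinarith
        exact_mod_cast h2
      k_int := ⟨1, one_ne_zero, fun u c => ⟨-4 * q L A * q (b u) (b c), by rw [one_mul]⟩⟩
      invL := fun g => by
        obtain ⟨C, hC⟩ := H_pull L hL g
        refine ⟨C, fun y => ?_⟩
        have h1 := hC y.1 y.2
        rw [pull_L] at h1
        exact h1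
      sq := fun g g' => by
        obtain ⟨C1, hC1⟩ := H_pull A hANS (g + g')
        obtain ⟨C2, hC2⟩ := H_pull A hANS g
        obtain ⟨C3, hC3⟩ := H_pull A hANS g'
        refine ⟨C1 + C2 + C3, fun y => ?_⟩
        have h1 := abs_le.1 (hC1 y.1 y.2)
        have h2 := abs_le.1 (hC2 y.1 y.2)
        have h3 := abs_le.1 (hC3 y.1 y.2)
        have hadd := H_add y.1 y.2
        have e1 : ∀ g : Fin r → ℤ, H y.1 y.2 (pull g A) = H y.1 y.2 A +
            ((2 * q L A : ℤ) : ℝ) * H y.1 y.2 (b g) -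
            ((2 * q L A * q (b g) (b g) : ℤ) : ℝ) * H y.1 y.2 L := by
          intro g
          rw [pull_A]
          exact additive_three NS _ hadd hANS (b_NS _) hL _ _
        have e4 : H y.1 y.2 (b (g + g')) = H y.1 y.2 (b g) + H y.1 y.2 (b g') := by
          rw [map_add]
          exact hadd _ (b_NS _) _ (b_NS _)
        have e5 : q (b (g + g')) (b (g + g')) =
            q (b g) (b g) + 2 * q (b g) (b g') + q (b g') (b g') := by
          rw [map_add, q_add, q_symm (b g), q_symm (b g'), q_add, q_add, q_symm (b g') (b g)]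
          ring
        have e6 : H y.1 y.2 (pull (g + g') A) - H y.1 y.2 (pull g A) -
            H y.1 y.2 (pull g' A) + H y.1 y.2 A -
            ((-4 * q L A * q (b g) (b g') : ℤ) : ℝ) * H y.1 y.2 L = 0 := by
          rw [e1 (g + g'), e1 g, e1 g', e4, e5]
          push_cast
          ring
        show |H y.1 (y.2 + (g + g')) A - H y.1 (y.2 + g) A - H y.1 (y.2 + g') A +
          H y.1 y.2 A - ((-4 * q L A * q (b g) (b g') : ℤ) : ℝ) * H y.1 y.2 L| ≤ _
        rw [abs_le]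
        constructor <;> linarith [h1.1, h1.2, h2.1, h2.2, h3.1, h3.2]
      domL := by
        obtain ⟨c, _, hc⟩ := dominated hANS ample_dom H H_add H_pos hL
        exact ⟨c, fun y => hc y.1 y.2⟩
      domA := fun g => by
        obtain ⟨C, hC⟩ := H_pull A hANS g
        obtain ⟨c, hc0, hc⟩ := dominated hANS ample_dom H H_add H_pos (pull_NS g)
        refine ⟨|C| + c, fun y => ?_⟩
        have h1 := abs_le.1 (hC y.1 y.2)
        have h2 := abs_le.1 (hc y.1 y.2)
        have h3 := le_abs_self C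
        have h4 := abs_nonneg (H y.1 y.2 A)
        have h5 := mul_nonneg (abs_nonneg C) h4
        show |H y.1 (y.2 + g) A| ≤ _
        rw [abs_le]
        constructor <;> nlinarith [h1.1, h1.2, h2.1, h2.2] }
  obtain ⟨C, hC0, hC⟩ := growth_eps HD ε hε
  refine ⟨|CA| + C * (1 + |CA|), by positivity, fun x n => ?_⟩
  have h1 := hC (∑ i, (n i).natAbs) n (x, 0) (by
    intro i
    have h2 : (n i).natAbs ≤ ∑ i, (n i).natAbs :=
      Finset.single_le_sum (f := fun i => (n i).natAbs) (fun _ _ => Nat.zero_le _)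
        (Finset.mem_univ i)
    rw [Int.abs_eq_natAbs]
    exact_mod_cast h2)
  have hcast : ((∑ i, (n i).natAbs : ℕ) : ℝ) = ∑ i, |(n i : ℝ)| := by
    push_cast
    refine Finset.sum_congr rfl fun i _ => ?_
    rw [Nat.cast_natAbs]
    push_cast
    rfl
  rw [hcast] at h1
  have h2 : |H x n A| ≤ C * (∑ i, |(n i : ℝ)| + 1) ^ 2 *
      (1 + |H x 0 A| + (∑ i, |(n i : ℝ)| + 1) ^ ε) := by
    have h3 : HD.hA (HD.act n (x, 0)) = H x n A := by
      show H x (0 + n) A = _
      rw [zero_add]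
    rw [← h3]
    exact h1
  obtain ⟨S, hS⟩ : ∃ S : ℝ, S = ∑ i, |(n i : ℝ)| := ⟨_, rfl⟩
  have hS0 : 0 ≤ S := by rw [hS]; exact Finset.sum_nonneg fun i _ => abs_nonneg _
  rw [← hS] at h2 ⊢
  obtain ⟨h, hh'⟩ : ∃ h, h = hh x 0 := ⟨_, rfl⟩
  have hh0 : 0 ≤ h := by rw [hh']; exact hh_nonneg _ _
  have h4 := abs_le.1 (hCA x n)
  have h5 := abs_le.1 (hCA x 0)
  have h6 := le_abs_self CA
  have h6' := abs_nonneg CA
  have h7 : |H x 0 A| ≤ h + |CA| := by
    rw [hh', abs_le]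
    have := hh_nonneg x 0
    constructor <;> linarith [h5.1, h5.2]
  obtain ⟨t, ht⟩ : ∃ t : ℝ, t = (1 + S) ^ ε := ⟨_, rfl⟩
  have ht0 : 0 ≤ t := by rw [ht]; positivity
  have e0 : (S + 1) ^ ε = t := by rw [ht, add_comm]
  rw [e0] at h2
  have h9 : hh x n ≤ |CA| + |H x n A| := by
    have := le_abs_self (H x n A)
    linarith [h4.1, h4.2]
  rw [← hh', ← ht]
  have h10 : C * (S + 1) ^ 2 * (1 + |H x 0 A| + t) ≤
      C * (1 + |CA|) * (1 + S) ^ 2 * (t + 1 + h) := by
    have e1 : C * (1 + |CA|) * (1 + S) ^ 2 * (t + 1 + h) =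
        C * (S + 1) ^ 2 * ((1 + |CA|) * (t + 1 + h)) := by ring
    rw [e1]
    refine mul_le_mul_of_nonneg_left ?_ (by positivity)
    nlinarith [mul_nonneg h6' ht0, mul_nonneg h6' hh0]
  have h11 : |CA| ≤ |CA| * (1 + S) ^ 2 * (t + 1 + h) := by
    have hs2 : (1 : ℝ) ≤ (1 + S) ^ 2 := by nlinarith
    have hs3 : (1 : ℝ) ≤ t + 1 + h := by linarith
    have hs4 : (1 : ℝ) ≤ (1 + S) ^ 2 * (t + 1 + h) := by nlinarith
    rw [mul_assoc]
    nlinarith
  have e2 : (|CA| + C * (1 + |CA|)) * (1 + S) ^ 2 * (t + 1 + h) =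
      |CA| * (1 + S) ^ 2 * (t + 1 + h) +
        C * (1 + |CA|) * (1 + S) ^ 2 * (t + 1 + h) := by ring
  rw [e2]
  linarith

end Pool.Agent.H49.HN
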