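import Pool.Agent.H13.HK.Growth

/-!
# Growth of heights with every positive exponent

For `Heights` (the Weil heights of an ample class `A` and of an invariant class `L` on the orbits of
a parabolic group `Z^r`, `r >= 2`) the height for `L` moves at most like `n^eps`, for every
`eps > 0`, and the height for `A` grows at most like `n^2 n^eps`.
-/

namespace Pool.Agent.H49.HN

open Pool.Agent.H13.HK (Heights)
open scoped BigOperators

/-- The averaging step. `a` is a function on a quarter plane, its second difference in the first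
direction is `κ l` up to `C₁`, its mixed difference is bounded by `C₂`. -/
theorem avg_step (a l : ℕ → ℕ → ℝ) (κ C₁ C₂ b : ℝ) (hκ : 0 < κ)
    (h11 : ∀ i j, |a (i + 2) j - 2 * a (i + 1) j + a i j - κ * l i j| ≤ C₁)
    (h12 : ∀ i j, |a (i + 1) (j + 1) - a (i + 1) j - a i (j + 1) + a i j| ≤ C₂)
    (S R : ℕ) (hS : 0 < S) (hb : ∀ i, i ≤ S → ∀ j, |l i j - l 0 j| ≤ b) :
    |l 0 R - l 0 0| ≤ 2 * b + (2 * C₁ + 2 * C₂ * (R / S)) / κ := by
  have hS' : (0 : ℝ) < S := by exact_mod_cast hS
  -- the mixed difference of a strip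
  have hG : ∀ (i R : ℕ), |a (i + 1) R - a i R - a (i + 1) 0 + a i 0| ≤ R * C₂ := by
    intro i R
    induction R with
    | zero => simp
    | succ R ih =>
      have h1 := h12 i R
      have e : a (i + 1) (R + 1) - a i (R + 1) - a (i + 1) 0 + a i 0 =
          (a (i + 1) R - a i R - a (i + 1) 0 + a i 0) +
          (a (i + 1) (R + 1) - a (i + 1) R - a i (R + 1) + a i R) := by ring
      rw [e]
      refine (abs_add_le _ _).trans ?_
      push_cast
      linarith
  have hsum : ∀ S : ℕ, |κ * ∑ i ∈ Finset.range S, (l i R - l i 0) -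
      ((a (S + 1) R - a S R - a (S + 1) 0 + a S 0) - (a 1 R - a 0 R - a 1 0 + a 0 0))| ≤
      S * (2 * C₁) := by
    intro S
    induction S with
    | zero => simp
    | succ S ih =>
      have h1 := h11 S R
      have h2 := h11 S 0
      rw [Finset.sum_range_succ]
      have e : κ * (∑ i ∈ Finset.range S, (l i R - l i 0) + (l S R - l S 0)) -
          ((a (S + 1 + 1) R - a (S + 1) R - a (S + 1 + 1) 0 + a (S + 1) 0) -
            (a 1 R - a 0 R - a 1 0 + a 0 0)) =
          (κ * ∑ i ∈ Finset.range S, (l i R - l i 0) -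
            ((a (S + 1) R - a S R - a (S + 1) 0 + a S 0) - (a 1 R - a 0 R - a 1 0 + a 0 0))) +
          (-(a (S + 2) R - 2 * a (S + 1) R + a S R - κ * l S R) +
            (a (S + 2) 0 - 2 * a (S + 1) 0 + a S 0 - κ * l S 0)) := by ring
      rw [e]
      refine (abs_add_le _ _).trans ?_
      have h3 := abs_add_le (-(a (S + 2) R - 2 * a (S + 1) R + a S R - κ * l S R))
        (a (S + 2) 0 - 2 * a (S + 1) 0 + a S 0 - κ * l S 0)
      rw [abs_neg] at h3
      push_cast
      linarith
  have h1 := hsum S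
  have h2 := hG S R
  have h3 := hG 0 R
  rw [zero_add] at h3
  -- the sum is close to `S` times the first term
  have h4 : |∑ i ∈ Finset.range S, (l i R - l i 0) - S * (l 0 R - l 0 0)| ≤ S * (2 * b) := by
    have e : ∑ i ∈ Finset.range S, (l i R - l i 0) - S * (l 0 R - l 0 0) =
        ∑ i ∈ Finset.range S, ((l i R - l 0 R) - (l i 0 - l 0 0)) := by
      have : (S : ℝ) * (l 0 R - l 0 0) = ∑ i ∈ Finset.range S, (l 0 R - l 0 0) := by
        rw [Finset.sum_const, Finset.card_range, nsmul_eq_mul]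
      rw [this, ← Finset.sum_sub_distrib]
      refine Finset.sum_congr rfl fun i _ => ?_
      ring
    rw [e]
    refine (Finset.abs_sum_le_sum_abs _ _).trans ?_
    have : ∑ i ∈ Finset.range S, |(l i R - l 0 R) - (l i 0 - l 0 0)| ≤
        ∑ i ∈ Finset.range S, 2 * b := by
      refine Finset.sum_le_sum fun i hi => ?_
      have hi' := (Finset.mem_range.1 hi).le
      have h5 := hb i hi' R
      have h6 := hb i hi' 0
      have h7 := abs_sub (l i R - l 0 R) (l i 0 - l 0 0)
      linarith
    rw [Finset.sum_const, Finset.card_range, nsmul_eq_mul] at this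
    exact this
  have h5 : κ * (S * |l 0 R - l 0 0|) ≤ κ * (S * (2 * b)) + (S * (2 * C₁) + 2 * (R * C₂)) := by
    have e : κ * (S * (l 0 R - l 0 0)) =
        -(κ * (∑ i ∈ Finset.range S, (l i R - l i 0) - S * (l 0 R - l 0 0))) +
        (κ * ∑ i ∈ Finset.range S, (l i R - l i 0) -
          ((a (S + 1) R - a S R - a (S + 1) 0 + a S 0) - (a 1 R - a 0 R - a 1 0 + a 0 0))) +
        ((a (S + 1) R - a S R - a (S + 1) 0 + a S 0) - (a 1 R - a 0 R - a 1 0 + a 0 0)) := by ring
    have e2 : κ * (S * |l 0 R - l 0 0|) = |κ * (S * (l 0 R - l 0 0))| := by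
      rw [abs_mul, abs_mul, abs_of_pos hκ, abs_of_pos hS']
    rw [e2, e]
    have h6 : |κ * (∑ i ∈ Finset.range S, (l i R - l i 0) - S * (l 0 R - l 0 0))| ≤
        κ * (S * (2 * b)) := by
      rw [abs_mul, abs_of_pos hκ]
      exact mul_le_mul_of_nonneg_left h4 hκ.le
    have h7 := abs_sub (a (S + 1) R - a S R - a (S + 1) 0 + a S 0) (a 1 R - a 0 R - a 1 0 + a 0 0)
    refine (abs_add_three _ _ _).trans ?_
    rw [abs_neg]
    linarith
  have h6 : |l 0 R - l 0 0| * (κ * S) ≤ (2 * b + (2 * C₁ + 2 * C₂ * (R / S)) / κ) * (κ * S) := by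
    have e : (2 * b + (2 * C₁ + 2 * C₂ * (R / S)) / κ) * (κ * S) =
        κ * (S * (2 * b)) + (S * (2 * C₁) + 2 * (R * C₂)) := by
      field_simp
    rw [e]
    linarith
  exact le_of_mul_le_mul_right h6 (by positivity)

/-- The step for two orthogonal directions. -/
theorem step (D : Heights) (h h' : Fin D.r → ℤ) (h0 : D.k h h' = 0) (h1 : 0 < D.k h h) :
    ∃ c, 0 ≤ c ∧ ∀ (S R : ℕ) (b : ℝ), 0 < S →
      (∀ t : ℕ, t ≤ S → ∀ x, |D.hL (D.act (t • h) x) - D.hL x| ≤ b) →
      ∀ x, |D.hL (D.act (R • h') x) - D.hL x| ≤ 2 * b + c * (R / S + 1) := by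
  obtain ⟨C₁, hC₁⟩ := D.sq h h
  obtain ⟨C₂, hC₂⟩ := D.sq h h'
  refine ⟨2 * (|C₁| + |C₂|) / D.k h h, by positivity, ?_⟩
  intro S R b hS hb x
  have hS' : (0 : ℝ) < S := by exact_mod_cast hS
  have hact : ∀ (p q : Fin D.r → ℤ), D.act (p + q) x = D.act p (D.act q x) := fun p q =>
    D.act_add p q x
  have key := avg_step (fun i j => D.hA (D.act (i • h + j • h') x))
    (fun i j => D.hL (D.act (i • h + j • h') x)) (D.k h h) |C₁| |C₂| b h1 ?_ ?_ S R hS ?_
  · simp only [zero_smul, zero_add, D.act_zero] at key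
    refine key.trans ?_
    have hR : (0 : ℝ) ≤ R / S := by positivity
    have e : 2 * (|C₁| + |C₂|) / D.k h h * (R / S + 1) =
        (2 * (|C₁| + |C₂|) * (R / S + 1)) / D.k h h := by ring
    rw [e]
    have h2 : (2 * |C₁| + 2 * |C₂| * (R / S)) / D.k h h ≤
        (2 * (|C₁| + |C₂|) * (R / S + 1)) / D.k h h := by
      refine div_le_div_of_nonneg_right ?_ h1.le
      nlinarith [mul_nonneg (abs_nonneg C₁) hR, abs_nonneg C₂]
    linarith
  · intro i j
    have h2 := (hC₁ (D.act (i • h + j • h') x)).trans (le_abs_self C₁)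
    have e1 : D.act (h + h) (D.act (i • h + j • h') x) = D.act ((i + 2) • h + j • h') x := by
      rw [← D.act_add]; congr 1; rw [add_smul, two_smul]; abel
    have e2 : D.act h (D.act (i • h + j • h') x) = D.act ((i + 1) • h + j • h') x := by
      rw [← D.act_add]; congr 1; rw [add_smul, one_smul]; abel
    rw [e1, e2] at h2
    have e3 : D.hA (D.act ((i + 2) • h + j • h') x) - 2 * D.hA (D.act ((i + 1) • h + j • h') x) +
        D.hA (D.act (i • h + j • h') x) - D.k h h * D.hL (D.act (i • h + j • h') x) =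
        D.hA (D.act ((i + 2) • h + j • h') x) - D.hA (D.act ((i + 1) • h + j • h') x) -
        D.hA (D.act ((i + 1) • h + j • h') x) +
        D.hA (D.act (i • h + j • h') x) - D.k h h * D.hL (D.act (i • h + j • h') x) := by ring
    show |D.hA (D.act ((i + 2) • h + j • h') x) - 2 * D.hA (D.act ((i + 1) • h + j • h') x) +
        D.hA (D.act (i • h + j • h') x) - D.k h h * D.hL (D.act (i • h + j • h') x)| ≤ |C₁|
    rw [e3]
    exact h2
  · intro i j
    have h2 := (hC₂ (D.act (i • h + j • h') x)).trans (le_abs_self C₂)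
    have e1 : D.act (h + h') (D.act (i • h + j • h') x) =
        D.act ((i + 1) • h + (j + 1) • h') x := by
      rw [← D.act_add]; congr 1; rw [add_smul, one_smul, add_smul, one_smul]; abel
    have e2 : D.act h (D.act (i • h + j • h') x) = D.act ((i + 1) • h + j • h') x := by
      rw [← D.act_add]; congr 1; rw [add_smul, one_smul]; abel
    have e3 : D.act h' (D.act (i • h + j • h') x) = D.act (i • h + (j + 1) • h') x := by
      rw [← D.act_add]; congr 1; rw [add_smul, one_smul]; abel
    rw [e1, e2, e3, h0, zero_mul, sub_zero] at h2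
    exact h2
  · intro i hi j
    have h2 := hb i hi (D.act (j • h') x)
    rw [← D.act_add] at h2
    simpa [zero_smul] using h2

/-- Exponential bound: after `j` steps of ratio `K` the drift is at most `C 2 ^ j`. -/
theorem drift_pow (D : Heights) (h h' : Fin D.r → ℤ) (h0 : D.k h h' = 0) (h1 : 0 < D.k h h)
    (h2 : 0 < D.k h' h') (K : ℕ) (hK : 0 < K) : ∃ C, 0 ≤ C ∧ ∀ (j R : ℕ), R ≤ K ^ j →
      (∀ x, |D.hL (D.act (R • h) x) - D.hL x| ≤ C * 2 ^ j) ∧
      (∀ x, |D.hL (D.act (R • h') x) - D.hL x| ≤ C * 2 ^ j) := by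
  obtain ⟨c, hc, hstep⟩ := step D h h' h0 h1
  obtain ⟨c', hc', hstep'⟩ := step D h' h (by rw [D.k_symm]; exact h0) h2
  obtain ⟨b, hb⟩ := D.invL h
  obtain ⟨b', hb'⟩ := D.invL h'
  have hK' : (0 : ℝ) ≤ K := Nat.cast_nonneg _
  obtain ⟨e, he⟩ : ∃ e : ℝ, e = (c + c') * (K + 1) := ⟨_, rfl⟩
  have he0 : 0 ≤ e := by rw [he]; positivity
  have main : ∀ (j R : ℕ), R ≤ K ^ j →
      (∀ x, |D.hL (D.act (R • h) x) - D.hL x| ≤ (|b| + |b'| + e) * 2 ^ j - e) ∧
      (∀ x, |D.hL (D.act (R • h') x) - D.hL x| ≤ (|b| + |b'| + e) * 2 ^ j - e) := by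
    intro j
    induction j with
    | zero =>
      intro R hR
      rw [pow_zero] at hR
      have hbb : 0 ≤ |b| + |b'| := by positivity
      rcases Nat.lt_or_ge R 1 with hR0 | hR1
      · have : R = 0 := by omega
        subst this
        constructor <;> intro x <;> rw [zero_smul, D.act_zero, sub_self, abs_zero] <;> linarith
      · have : R = 1 := by omega
        subst this
        constructor
        · intro x
          rw [one_smul]
          have := (hb x).trans (le_abs_self b)
          have := abs_nonneg b'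
          linarith
        · intro x
          rw [one_smul]
          have := (hb' x).trans (le_abs_self b')
          have := abs_nonneg b
          linarith
    | succ j ih =>
      intro R hR
      have hS : 0 < K ^ j := pow_pos hK j
      have hS' : (0 : ℝ) < (K ^ j : ℕ) := by exact_mod_cast hS
      have hq : (R : ℝ) / (K ^ j : ℕ) ≤ K := by
        rw [div_le_iff₀ hS']
        have : R ≤ K * K ^ j := by rw [pow_succ, mul_comm] at hR; exact hR
        exact_mod_cast this
      constructor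
      · intro x
        refine (hstep' (K ^ j) R _ hS (fun t ht x => (ih t ht).2 x) x).trans ?_
        have h3 : c' * ((R : ℝ) / (K ^ j : ℕ) + 1) ≤ e := by
          rw [he]
          have h4 : c' * ((R : ℝ) / (K ^ j : ℕ) + 1) ≤ c' * (K + 1) :=
            mul_le_mul_of_nonneg_left (by linarith) hc'
          have h5 : 0 ≤ c * ((K : ℝ) + 1) := by positivity
          linarith
        rw [pow_succ]
        linarith
      · intro x
        refine (hstep (K ^ j) R _ hS (fun t ht x => (ih t ht).1 x) x).trans ?_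
        have h3 : c * ((R : ℝ) / (K ^ j : ℕ) + 1) ≤ e := by
          rw [he]
          have h4 : c * ((R : ℝ) / (K ^ j : ℕ) + 1) ≤ c * (K + 1) :=
            mul_le_mul_of_nonneg_left (by linarith) hc
          have h5 : 0 ≤ c' * ((K : ℝ) + 1) := by positivity
          linarith
        rw [pow_succ]
        linarith
  refine ⟨|b| + |b'| + e, by positivity, fun j R hR => ⟨fun x => ?_, fun x => ?_⟩⟩
  · have := (main j R hR).1 x
    linarith
  · have := (main j R hR).2 x
    linarith

/-- Along a direction which has an orthogonal direction `L` moves at most like `n ^ ε`. -/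
theorem drift_eps_nat (D : Heights) (h h' : Fin D.r → ℤ) (h0 : D.k h h' = 0) (h1 : 0 < D.k h h)
    (h2 : 0 < D.k h' h') (ε : ℝ) (hε : 0 < ε) : ∃ C, 0 ≤ C ∧ ∀ (R : ℕ) x,
      |D.hL (D.act (R • h') x) - D.hL x| ≤ C * ((R : ℝ) + 1) ^ ε := by
  obtain ⟨K, hK⟩ : ∃ K : ℕ, K = ⌈(2 : ℝ) ^ (1 / ε)⌉₊ + 2 := ⟨_, rfl⟩
  have hK1 : 1 < K := by omega
  have hK2 : (2 : ℝ) ≤ (K : ℝ) ^ ε := by
    have h3 : (2 : ℝ) ^ (1 / ε) ≤ K := by
      have := Nat.le_ceil ((2 : ℝ) ^ (1 / ε))
      rw [hK]; push_cast; linarith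
    have h4 : ((2 : ℝ) ^ (1 / ε)) ^ ε = 2 := by
      rw [← Real.rpow_mul (by norm_num)]
      rw [one_div, inv_mul_cancel₀ hε.ne', Real.rpow_one]
    calc (2 : ℝ) = ((2 : ℝ) ^ (1 / ε)) ^ ε := h4.symm
      _ ≤ (K : ℝ) ^ ε := Real.rpow_le_rpow (by positivity) h3 hε.le
  obtain ⟨C, hC0, hC⟩ := drift_pow D h h' h0 h1 h2 K (by omega)
  refine ⟨2 * C, by positivity, fun R x => ?_⟩
  have h5 := (hC (Nat.clog K R) R (Nat.le_pow_clog hK1 R)).2 x
  refine h5.trans ?_
  have h6 : (2 : ℝ) ^ (Nat.clog K R) ≤ 2 * ((R : ℝ) + 1) ^ ε := by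
    have h7 : (1 : ℝ) ≤ ((R : ℝ) + 1) ^ ε :=
      Real.one_le_rpow (by have : (0 : ℝ) ≤ R := Nat.cast_nonneg _; linarith) hε.le
    rcases Nat.eq_zero_or_pos (Nat.clog K R) with hz | hpos
    · rw [hz, pow_zero]; linarith
    · obtain ⟨j, hj⟩ : ∃ j, Nat.clog K R = j + 1 := ⟨Nat.clog K R - 1, by omega⟩
      have hR1 : 1 < R := by
        by_contra hcon
        have : Nat.clog K R = 0 := Nat.clog_of_right_le_one (by omega) K
        omega
      have h8 : K ^ j < R := by
        have := Nat.pow_pred_clog_lt_self hK1 hR1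
        rw [hj] at this
        simpa using this
      rw [hj, pow_succ]
      have h9 : (2 : ℝ) ^ j ≤ ((R : ℝ) + 1) ^ ε := by
        calc (2 : ℝ) ^ j ≤ ((K : ℝ) ^ ε) ^ j := pow_le_pow_left₀ (by norm_num) hK2 j
          _ = ((K : ℝ) ^ j) ^ ε := by
            rw [← Real.rpow_natCast, ← Real.rpow_natCast, ← Real.rpow_mul (Nat.cast_nonneg _),
              ← Real.rpow_mul (Nat.cast_nonneg _), mul_comm]
          _ ≤ ((R : ℝ) + 1) ^ ε := by
            refine Real.rpow_le_rpow (by positivity) ?_ hε.le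
            have : ((K ^ j : ℕ) : ℝ) ≤ R := by exact_mod_cast h8.le
            push_cast at this
            linarith
      linarith
  calc C * 2 ^ (Nat.clog K R) ≤ C * (2 * ((R : ℝ) + 1) ^ ε) := mul_le_mul_of_nonneg_left h6 hC0
    _ = _ := by ring

theorem k_smul_nat (D : Heights) (n : ℕ) (b c : Fin D.r → ℤ) : D.k (n • b) c = n * D.k b c := by
  induction n with
  | zero =>
    have := D.k_add 0 0 c
    rw [add_zero] at this
    rw [zero_smul]; push_cast; linarith
  | succ n ih => rw [add_smul, one_smul, D.k_add, ih]; push_cast; ring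

theorem k_zero (D : Heights) (c : Fin D.r → ℤ) : D.k 0 c = 0 := by
  simpa using k_smul_nat D 0 0 c

theorem k_neg (D : Heights) (b c : Fin D.r → ℤ) : D.k (-b) c = - D.k b c := by
  have := D.k_add b (-b) c
  rw [add_neg_cancel, k_zero D] at this
  linarith

theorem k_smul (D : Heights) (n : ℤ) (b c : Fin D.r → ℤ) : D.k (n • b) c = n * D.k b c := by
  obtain ⟨m, rfl | rfl⟩ := n.eq_nat_or_neg
  · rw [natCast_zsmul, k_smul_nat D]; push_cast; ring
  · rw [neg_smul, natCast_zsmul, k_neg D, k_smul_nat D]; push_cast; ring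

/-- every direction has an orthogonal direction -/
theorem exists_orth (D : Heights) (i : Fin D.r) : ∃ h, D.k h (Pi.single i 1) = 0 ∧ 0 < D.k h h := by
  obtain ⟨j, hj⟩ : ∃ j : Fin D.r, j ≠ i := by
    have : 1 < Fintype.card (Fin D.r) := by rw [Fintype.card_fin]; exact D.two_le
    exact Fintype.exists_ne_of_one_lt_card this i
  set ei : Fin D.r → ℤ := Pi.single i 1 with hei
  set ej : Fin D.r → ℤ := Pi.single j 1 with hej
  obtain ⟨N, hN, hint⟩ := D.k_int
  obtain ⟨z1, hz1⟩ := hint ei ei
  obtain ⟨z2, hz2⟩ := hint ei ej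
  have hi0 : ei ≠ 0 := by
    intro h
    have := congrFun h i
    simp [hei] at this
  have hz1' : z1 ≠ 0 := by
    rintro rfl
    have := D.k_pos ei hi0
    rw [Int.cast_zero] at hz1
    rcases mul_eq_zero.1 hz1 with h | h
    · exact hN h
    · linarith
  refine ⟨z1 • ej - z2 • ei, ?_, ?_⟩
  · rw [sub_eq_add_neg, D.k_add, ← neg_smul, k_smul D, k_smul D, D.k_symm ej ei]
    push_cast
    rw [← hz1, ← hz2]; ring
  · apply D.k_pos
    intro h
    have := congrFun h j
    simp [hei, hej, hj] at this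
    exact hz1' this

/-- `L` moves at most like `n ^ ε` along the coordinates. -/
theorem drift_eps (D : Heights) (ε : ℝ) (hε : 0 < ε) :
    ∃ C, 0 ≤ C ∧ ∀ (i : Fin D.r) (m : ℤ) (n : ℕ) x, |m| ≤ n →
    |D.hL (D.act (m • Pi.single i 1) x) - D.hL x| ≤ C * ((n : ℝ) + 1) ^ ε := by
  have h1 : ∀ i : Fin D.r, ∃ C, 0 ≤ C ∧ ∀ (m : ℕ) x,
      |D.hL (D.act (m • Pi.single i 1) x) - D.hL x| ≤ C * ((m : ℝ) + 1) ^ ε := by
    intro i
    obtain ⟨h, h0, h1⟩ := exists_orth D i
    have h2 : 0 < D.k (Pi.single i 1) (Pi.single i 1) := by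
      apply D.k_pos
      intro h
      have := congrFun h i
      simp at this
    exact drift_eps_nat D h _ h0 h1 h2 ε hε
  choose C hC0 hC using h1
  refine ⟨∑ i, C i, Finset.sum_nonneg fun i _ => hC0 i, fun i m n x hm => ?_⟩
  have hle : C i ≤ ∑ i, C i := Finset.single_le_sum (fun i _ => hC0 i) (Finset.mem_univ i)
  have step : ∀ (a : ℕ) y, a ≤ n →
      |D.hL (D.act (a • Pi.single i 1) y) - D.hL y| ≤ (∑ i, C i) * ((n : ℝ) + 1) ^ ε := by
    intro a y ha
    refine (hC i a y).trans ?_
    have ha' : (a : ℝ) ≤ n := by exact_mod_cast ha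
    have h3 : ((a : ℝ) + 1) ^ ε ≤ ((n : ℝ) + 1) ^ ε :=
      Real.rpow_le_rpow (by positivity) (by linarith) hε.le
    exact mul_le_mul hle h3 (by positivity) (Finset.sum_nonneg fun i _ => hC0 i)
  obtain ⟨a, rfl | rfl⟩ := m.eq_nat_or_neg
  · rw [natCast_zsmul]
    apply step
    simpa using hm
  · have ha : a ≤ n := by
      have : |(-(a : ℤ))| = a := by simp
      rw [this] at hm
      exact_mod_cast hm
    have := step a (D.act ((-(a : ℤ)) • Pi.single i 1) x) ha
    rw [← D.act_add, neg_smul, natCast_zsmul, add_neg_cancel, D.act_zero, abs_sub_comm] at this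
    simpa [neg_smul, natCast_zsmul] using this


/-- the mixed difference -/
noncomputable def mixedM (D : Heights) (p q : Fin D.r → ℤ) (x : D.X) : ℝ :=
  D.hA (D.act (p + q) x) - D.hA (D.act p x) - D.hA (D.act q x) + D.hA x

/-- a function on a box which changes little along the coordinates -/
theorem coord {r : ℕ} (F : (Fin r → ℤ) → ℝ) (n : ℕ) (B : ℝ)
    (hF : ∀ (g : Fin r → ℤ) (i : Fin r) (m : ℤ), (∀ j, |g j| ≤ n) → g i = 0 → |m| ≤ n →
      |F (g + m • Pi.single i 1) - F g| ≤ B) (g : Fin r → ℤ) (hg : ∀ j, |g j| ≤ n) :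
    |F g - F 0| ≤ r * B := by
  classical
  have h1 : ∀ s : Finset (Fin r),
      |F (fun i => if i ∈ s then g i else 0) - F 0| ≤ s.card * B := by
    intro s
    induction s using Finset.induction_on with
    | empty =>
      have : (fun i : Fin r => if i ∈ (∅ : Finset (Fin r)) then g i else 0) = 0 := by
        ext i; simp
      rw [this]; simp
    | insert j s hj ih =>
      have e1 : (fun i => if i ∈ insert j s then g i else 0) =
          (fun i => if i ∈ s then g i else 0) + g j • Pi.single j 1 := by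
        ext i
        by_cases hij : i = j
        · subst hij; simp [hj]
        · simp [hij]
      rw [e1, Finset.card_insert_of_notMem hj]
      have h2 := hF (fun i => if i ∈ s then g i else 0) j (g j)
        (by
          intro i
          by_cases h : i ∈ s
          · simpa [h] using hg i
          · simp [h])
        (by simp [hj]) (hg j)
      have h3 := abs_sub_le (F ((fun i => if i ∈ s then g i else 0) + g j • Pi.single j 1))
        (F (fun i => if i ∈ s then g i else 0)) (F 0)
      push_cast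
      linarith
  have h2 := h1 Finset.univ
  simpa using h2

/-- a function on a box which changes little in each step -/
theorem steps {r : ℕ} (F : (Fin r → ℤ) → ℝ) (n : ℕ) (B : ℝ) (hB : 0 ≤ B)
    (hF : ∀ (g : Fin r → ℤ) (i : Fin r), (∀ j, |g j| ≤ n) →
      |F (g + Pi.single i 1) - F g| ≤ B) (g : Fin r → ℤ) (hg : ∀ j, |g j| ≤ n) :
    |F g - F 0| ≤ r * (n * B) := by
  refine coord F n (n * B) ?_ g hg
  intro g i m hg hi hm
  have up : ∀ (a : ℕ) (g' : Fin r → ℤ), (∀ j, j ≠ i → |g' j| ≤ n) → -(n : ℤ) ≤ g' i →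
      g' i + a ≤ n → |F (g' + (a : ℤ) • Pi.single i 1) - F g'| ≤ a * B := by
    intro a g' h1 h2 h3
    induction a with
    | zero => simp
    | succ a ih =>
      have ih' := ih (by push_cast at h3; linarith)
      have hb : ∀ j, |(g' + (a : ℤ) • Pi.single i 1 : Fin r → ℤ) j| ≤ n := by
        intro j
        by_cases hj : j = i
        · subst hj
          push_cast at h3
          simp
          rw [abs_le]
          constructor <;> linarith
        · simpa [hj] using h1 j hj
      have h4 := hF _ i hb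
      have e1 : g' + ((a + 1 : ℕ) : ℤ) • (Pi.single i 1 : Fin r → ℤ) =
          g' + (a : ℤ) • Pi.single i 1 + Pi.single i 1 := by
        push_cast; rw [add_smul, one_smul, add_assoc]
      rw [e1]
      have h5 := abs_sub_le (F (g' + (a : ℤ) • Pi.single i 1 + Pi.single i 1))
        (F (g' + (a : ℤ) • Pi.single i 1)) (F g')
      push_cast
      linarith
  obtain ⟨a, rfl | rfl⟩ := m.eq_nat_or_neg
  · have ha : (a : ℤ) ≤ n := by simpa using hm
    have := up a g (fun j _ => hg j) (by rw [hi]; simp) (by rw [hi]; simpa using ha)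
    refine this.trans (mul_le_mul_of_nonneg_right (by exact_mod_cast ha) hB)
  · have ha : (a : ℤ) ≤ n := by simpa using hm
    have h1 : (g + (-(a : ℤ)) • Pi.single i 1 : Fin r → ℤ) i = -a := by simp [hi]
    have := up a (g + (-(a : ℤ)) • Pi.single i 1)
      (by intro j hj; simpa [hj] using hg j) (by rw [h1]; linarith) (by rw [h1]; simp)
    have e1 : g + (-(a : ℤ)) • Pi.single i 1 + (a : ℤ) • (Pi.single i 1 : Fin r → ℤ) = g := by
      rw [neg_smul]; abel
    rw [e1, abs_sub_comm] at this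
    refine this.trans (mul_le_mul_of_nonneg_right (by exact_mod_cast ha) hB)

/-- **Growth of heights** with the exponent `2 + ε`. -/
theorem growth_eps (D : Heights) (ε : ℝ) (hε : 0 < ε) :
    ∃ C, 0 < C ∧ ∀ (n : ℕ) (g : Fin D.r → ℤ) (x : D.X), (∀ i, |g i| ≤ n) →
    |D.hA (D.act g x)| ≤ C * ((n : ℝ) + 1) ^ 2 * (1 + |D.hA x| + ((n : ℝ) + 1) ^ ε) := by
  obtain ⟨c, hc0, hc⟩ := drift_eps D ε hε
  obtain ⟨cL, hcL⟩ := D.domL
  -- constants for the unit vectors
  have h1 : ∀ i : Fin D.r, ∃ C, ∀ x, |D.hA (D.act (Pi.single i 1) x)| ≤ C * (1 + |D.hA x|) :=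
    fun i => D.domA _
  choose cA hcA using h1
  have h2 : ∀ i j : Fin D.r, ∃ C, ∀ x, |mixedM D (Pi.single i 1) (Pi.single j 1) x -
      D.k (Pi.single i 1) (Pi.single j 1) * D.hL x| ≤ C := fun i j => D.sq _ _
  choose cS hcS using h2
  set S := ∑ i, ∑ j, |cS i j| with hS
  set K := ∑ i : Fin D.r, ∑ j : Fin D.r, |D.k (Pi.single i 1) (Pi.single j 1)| with hK
  set T := ∑ i, |cA i| with hT
  have hS0 : 0 ≤ S := Finset.sum_nonneg fun i _ => Finset.sum_nonneg fun j _ => abs_nonneg _
  have hK0 : 0 ≤ K := Finset.sum_nonneg fun i _ => Finset.sum_nonneg fun j _ => abs_nonneg _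
  have hT0 : 0 ≤ T := Finset.sum_nonneg fun i _ => abs_nonneg _
  have hSle : ∀ i j, |cS i j| ≤ S := fun i j =>
    (Finset.single_le_sum (f := fun j => |cS i j|) (fun j _ => abs_nonneg _)
      (Finset.mem_univ j)).trans
    (Finset.single_le_sum (f := fun i => ∑ j, |cS i j|)
      (fun i _ => Finset.sum_nonneg fun j _ => abs_nonneg _) (Finset.mem_univ i))
  have hKle : ∀ i j : Fin D.r, |D.k (Pi.single i 1) (Pi.single j 1)| ≤ K := fun i j =>
    (Finset.single_le_sum (f := fun j => |D.k (Pi.single i 1) (Pi.single j 1)|)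
      (fun j _ => abs_nonneg _) (Finset.mem_univ j)).trans
    (Finset.single_le_sum (f := fun i => ∑ j, |D.k (Pi.single i 1) (Pi.single j 1)|)
      (fun i _ => Finset.sum_nonneg fun j _ => abs_nonneg _) (Finset.mem_univ i))
  have hTle : ∀ i, |cA i| ≤ T := fun i =>
    Finset.single_le_sum (f := fun i => |cA i|) (fun i _ => abs_nonneg _) (Finset.mem_univ i)
  -- the height for `L`
  have hl : ∀ (n : ℕ) (g : Fin D.r → ℤ) x, (∀ i, |g i| ≤ n) →
      |D.hL (D.act g x)| ≤ |cL| * (1 + |D.hA x|) + D.r * (c * ((n : ℝ) + 1) ^ ε) := by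
    intro n g x hg
    have h3 := coord (fun g => D.hL (D.act g x)) n (c * ((n : ℝ) + 1) ^ ε) (by
      intro g i m _ _ hm
      have := hc i m n (D.act g x) hm
      rw [← D.act_add] at this
      simpa [add_comm] using this) g hg
    simp only [D.act_zero] at h3
    have h4 : |D.hL x| ≤ |cL| * (1 + |D.hA x|) :=
      (hcL x).trans (mul_le_mul_of_nonneg_right (le_abs_self _) (by positivity))
    have h5 : |D.hL (D.act g x)| ≤ |D.hL (D.act g x) - D.hL x| + |D.hL x| := by
      have := abs_add_le (D.hL (D.act g x) - D.hL x) (D.hL x)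
      simpa using this
    linarith
  -- the first differences
  have hd : ∀ (n : ℕ) (g : Fin D.r → ℤ) x, (∀ i, |g i| ≤ n) → ∀ i,
      |D.hA (D.act (Pi.single i 1) (D.act g x)) - D.hA (D.act g x)| ≤
      (T + 1) * (1 + |D.hA x|) +
        D.r * (n * (S + K * (|cL| * (1 + |D.hA x|) + D.r * (c * ((n : ℝ) + 1) ^ ε)))) := by
    intro n g x hg i
    have h3 := steps (fun g => D.hA (D.act (Pi.single i 1) (D.act g x)) - D.hA (D.act g x)) n
      (S + K * (|cL| * (1 + |D.hA x|) + D.r * (c * ((n : ℝ) + 1) ^ ε))) (by positivity) (by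
      intro g j hg
      have a1 := hcS i j (D.act g x)
      have a2 := hl n g x hg
      have e1 : D.hA (D.act (Pi.single i 1) (D.act (g + Pi.single j 1) x)) -
          D.hA (D.act (g + Pi.single j 1) x) -
          (D.hA (D.act (Pi.single i 1) (D.act g x)) - D.hA (D.act g x)) =
          mixedM D (Pi.single i 1) (Pi.single j 1) (D.act g x) := by
        unfold mixedM
        rw [D.act_add (Pi.single i 1) (Pi.single j 1), add_comm g, D.act_add (Pi.single j 1) g]
        ring
      rw [e1]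
      have a3 : |D.k (Pi.single i 1) (Pi.single j 1) * D.hL (D.act g x)| ≤
          K * (|cL| * (1 + |D.hA x|) + D.r * (c * ((n : ℝ) + 1) ^ ε)) := by
        rw [abs_mul]
        exact mul_le_mul (hKle i j) a2 (abs_nonneg _) hK0
      have a4 : |mixedM D (Pi.single i 1) (Pi.single j 1) (D.act g x) -
          D.k (Pi.single i 1) (Pi.single j 1) * D.hL (D.act g x)| ≤ S :=
        a1.trans ((le_abs_self _).trans (hSle i j))
      have a5 := abs_add_le (mixedM D (Pi.single i 1) (Pi.single j 1) (D.act g x) -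
          D.k (Pi.single i 1) (Pi.single j 1) * D.hL (D.act g x))
          (D.k (Pi.single i 1) (Pi.single j 1) * D.hL (D.act g x))
      rw [sub_add_cancel] at a5
      linarith) g hg
    simp only [D.act_zero] at h3
    have h4 : |D.hA (D.act (Pi.single i 1) x) - D.hA x| ≤ (T + 1) * (1 + |D.hA x|) := by
      have b1 := hcA i x
      have b2 : cA i * (1 + |D.hA x|) ≤ T * (1 + |D.hA x|) :=
        mul_le_mul_of_nonneg_right ((le_abs_self _).trans (hTle i)) (by positivity)
      have b3 := abs_sub (D.hA (D.act (Pi.single i 1) x)) (D.hA x)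
      linarith [abs_nonneg (D.hA x)]
    have h5 := abs_add_le ((D.hA (D.act (Pi.single i 1) (D.act g x)) - D.hA (D.act g x)) -
      (D.hA (D.act (Pi.single i 1) x) - D.hA x)) (D.hA (D.act (Pi.single i 1) x) - D.hA x)
    rw [sub_add_cancel] at h5
    linarith
  -- the height for `A`
  have hr0 : (0 : ℝ) ≤ D.r := Nat.cast_nonneg _
  refine ⟨1 + D.r * ((T + 1) + D.r * (S + K * (|cL| + D.r * c))), by positivity, ?_⟩
  intro n g x hg
  set H := 1 + |D.hA x| with hH
  have hH1 : 1 ≤ H := by have := abs_nonneg (D.hA x); linarith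
  have hn0 : (0 : ℝ) ≤ n := Nat.cast_nonneg _
  set s := ((n : ℝ) + 1) ^ ε with hs
  have hs0 : 0 ≤ s := by rw [hs]; positivity
  have h3 := steps (fun g => D.hA (D.act g x)) n
      ((T + 1) * H + D.r * (n * (S + K * (|cL| * H + D.r * (c * s))))) (by positivity) (by
      intro g j hg
      have := hd n g x hg j
      rw [add_comm g, D.act_add]
      exact this) g hg
  simp only [D.act_zero] at h3
  have h4 : |D.hA (D.act g x)| ≤ |D.hA (D.act g x) - D.hA x| + |D.hA x| := by
    have := abs_add_le (D.hA (D.act g x) - D.hA x) (D.hA x)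
    simpa using this
  have h5 : |D.hA (D.act g x)| ≤
      D.r * (n * ((T + 1) * H + D.r * (n * (S + K * (|cL| * H + D.r * (c * s)))))) + |D.hA x| := by
    linarith
  refine h5.trans ?_
  have p1 : (n : ℝ) ≤ (n + 1) ^ 2 := by nlinarith
  have p2 : (n : ℝ) * n ≤ (n + 1) ^ 2 := by nlinarith
  have p3 : (1 : ℝ) ≤ (n + 1) ^ 2 := by nlinarith
  have q1 : H ≤ H + s := by linarith
  have q2 : S + K * (|cL| * H + D.r * (c * s)) ≤ (S + K * (|cL| + D.r * c)) * (H + s) := by
    have : 0 ≤ S * (H + s - 1) + K * |cL| * s + K * D.r * c * H := by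
      have : 0 ≤ H + s - 1 := by linarith
      positivity
    nlinarith
  have hx : |D.hA x| ≤ 1 * (n + 1) ^ 2 * (H + s) := by
    have : |D.hA x| ≤ H + s := by linarith
    calc |D.hA x| ≤ 1 * (H + s) := by linarith
      _ ≤ (n + 1) ^ 2 * (H + s) := mul_le_mul_of_nonneg_right p3 (by positivity)
      _ = _ := by ring
  have t1 : (n : ℝ) * ((T + 1) * H) ≤ (n + 1) ^ 2 * ((T + 1) * (H + s)) :=
    mul_le_mul p1 (mul_le_mul_of_nonneg_left q1 (by positivity)) (by positivity) (by positivity)
  have t2 : (n : ℝ) * n * (S + K * (|cL| * H + D.r * (c * s))) ≤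
      (n + 1) ^ 2 * ((S + K * (|cL| + D.r * c)) * (H + s)) :=
    mul_le_mul p2 q2 (by positivity) (by positivity)
  have t3 : (D.r : ℝ) * (n * ((T + 1) * H + D.r * (n * (S + K * (|cL| * H + D.r * (c * s)))))) =
      D.r * (n * ((T + 1) * H)) + D.r * (D.r * (n * n * (S + K * (|cL| * H + D.r * (c * s))))) := by ring
  rw [t3]
  have u1 := mul_le_mul_of_nonneg_left t1 hr0
  have u2 := mul_le_mul_of_nonneg_left (mul_le_mul_of_nonneg_left t2 hr0) hr0
  calc _ ≤ D.r * ((n + 1) ^ 2 * ((T + 1) * (H + s))) +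
        D.r * (D.r * ((n + 1) ^ 2 * ((S + K * (|cL| + D.r * c)) * (H + s)))) +
        1 * (n + 1) ^ 2 * (H + s) := by linarith
    _ = _ := by ring

end Pool.Agent.H49.HN
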